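import Mathlib
import Pool.Agent.H425R3.MM.K3

open Finset
open Pool.Agent.H469R2.NK
open Pool.Agent.H425R3.MM

namespace Pool.Agent.H425R3.UI

/-- the duality principle, real points -/
lemma dual_real (S : Finset ℝ) (T : Finset ℕ) (b : ℕ → ℂ) (θ : ℕ → ℝ) {v A K : ℝ} (hv0 : 0 ≤ v) (hK0 : 0 ≤ K)
    (hv : ∀ R ∈ S, v ≤ ‖∑ m ∈ T, b m * e (R * θ m)‖) (hA : ∑ m ∈ T, ‖b m‖^2 ≤ A)
    (hK : ∀ R ∈ S, ∑ R' ∈ S, ‖∑ m ∈ T, e ((R - R') * θ m)‖ ≤ K) :
    (S.card : ℝ) * v^2 ≤ A * K := by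
  have hA0 : 0 ≤ A := le_trans (sum_nonneg (fun _ _ => by positivity)) hA
  rcases S.eq_empty_or_nonempty with rfl | hS
  · simp only [card_empty, Nat.cast_zero, zero_mul]; positivity
  have hS0 : (0:ℝ) < S.card := by exact_mod_cast hS.card_pos
  set B : ℝ → ℂ := fun R => ∑ m ∈ T, b m * e (R * θ m) with hB
  set ε : ℝ → ℂ := fun R => if B R = 0 then 0 else (starRingEnd ℂ) (B R) / ‖B R‖ with hε
  have hε1 : ∀ R, ‖ε R‖ ≤ 1 := by
    intro R
    simp only [hε]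
    split_ifs with h
    · simp
    · rw [norm_div, Complex.norm_conj, Complex.norm_real, Real.norm_eq_abs, abs_norm]
      have : ‖B R‖ ≠ 0 := by rwa [norm_ne_zero_iff]
      rw [div_self this]
  have hεB : ∀ R, ε R * B R = ((‖B R‖ : ℝ) : ℂ) := by
    intro R
    simp only [hε]
    split_ifs with h
    · rw [h]; simp
    · have h1 : ((‖B R‖ : ℝ) : ℂ) ≠ 0 := by
        rw [Complex.ofReal_ne_zero]; rwa [norm_ne_zero_iff]
      rw [div_mul_eq_mul_div, div_eq_iff h1, mul_comm, Complex.mul_conj']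
      ring
  set G : ℕ → ℂ := fun m => ∑ R ∈ S, ε R * e (R * θ m) with hG
  have h1 : (∑ R ∈ S, ‖B R‖) = ‖∑ m ∈ T, b m * G m‖ := by
    have e1 : ∑ m ∈ T, b m * G m = ((∑ R ∈ S, ‖B R‖ : ℝ) : ℂ) := by
      simp only [hG]
      rw [Complex.ofReal_sum]
      calc ∑ m ∈ T, b m * ∑ R ∈ S, ε R * e (R * θ m) = ∑ m ∈ T, ∑ R ∈ S, ε R * (b m * e (R * θ m)) := by
            apply sum_congr rfl; intro m _; rw [mul_sum]; apply sum_congr rfl; intro R _; ring
        _ = ∑ R ∈ S, ε R * B R := by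
            rw [sum_comm]; apply sum_congr rfl; intro R _; simp only [hB]; rw [mul_sum]
        _ = _ := sum_congr rfl (fun R _ => hεB R)
    rw [e1, Complex.norm_real, Real.norm_of_nonneg (by positivity)]
  have h2 : (S.card : ℝ) * v ≤ ∑ R ∈ S, ‖B R‖ := by
    rw [← nsmul_eq_mul]
    exact card_nsmul_le_sum _ _ _ hv
  have h3 : ‖∑ m ∈ T, b m * G m‖^2 ≤ A * ∑ m ∈ T, ‖G m‖^2 := by
    have g1 : ‖∑ m ∈ T, b m * G m‖ ≤ ∑ m ∈ T, ‖b m‖ * ‖G m‖ := by
      refine (norm_sum_le _ _).trans (le_of_eq ?_)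
      apply sum_congr rfl; intro m _; rw [norm_mul]
    calc ‖∑ m ∈ T, b m * G m‖^2 ≤ (∑ m ∈ T, ‖b m‖ * ‖G m‖)^2 := pow_le_pow_left₀ (norm_nonneg _) g1 2
      _ ≤ (∑ m ∈ T, ‖b m‖^2) * ∑ m ∈ T, ‖G m‖^2 := sum_mul_sq_le_sq_mul_sq _ _ _
      _ ≤ _ := mul_le_mul_of_nonneg_right hA (sum_nonneg (fun _ _ => by positivity))
  have h4 : ∑ m ∈ T, ‖G m‖^2 ≤ S.card * K := by
    have g1 : ((∑ m ∈ T, ‖G m‖^2 : ℝ) : ℂ) = ∑ R ∈ S, ∑ R' ∈ S, ε R * (starRingEnd ℂ) (ε R') *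
        ∑ m ∈ T, e ((R - R') * θ m) := by
      push_cast
      have g2 : ∀ m ∈ T, ((‖G m‖:ℂ))^2 = ∑ R ∈ S, ∑ R' ∈ S, ε R * (starRingEnd ℂ) (ε R') * e ((R - R') * θ m) := by
        intro m _
        rw [← Complex.mul_conj']
        simp only [hG]
        rw [map_sum, sum_mul_sum]
        apply sum_congr rfl; intro R _
        apply sum_congr rfl; intro R' _
        rw [map_mul, conj_e]
        have : e ((R - R') * θ m) = e (R * θ m) * e (-(R' * θ m)) := by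
          rw [← e_add]; congr 1; ring
        rw [this]; ring
      rw [sum_congr rfl g2, sum_comm]
      apply sum_congr rfl; intro R _
      rw [sum_comm]
      apply sum_congr rfl; intro R' _
      rw [mul_sum]
    have g3 : (∑ m ∈ T, ‖G m‖^2 : ℝ) = ‖((∑ m ∈ T, ‖G m‖^2 : ℝ) : ℂ)‖ := by
      rw [Complex.norm_real, Real.norm_of_nonneg (sum_nonneg (fun _ _ => by positivity))]
    rw [g3, g1]
    calc ‖∑ R ∈ S, ∑ R' ∈ S, ε R * (starRingEnd ℂ) (ε R') * ∑ m ∈ T, e ((R - R') * θ m)‖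
        ≤ ∑ R ∈ S, ∑ R' ∈ S, ‖∑ m ∈ T, e ((R - R') * θ m)‖ := by
          refine (norm_sum_le _ _).trans (sum_le_sum fun R _ => ?_)
          refine (norm_sum_le _ _).trans (sum_le_sum fun R' _ => ?_)
          rw [norm_mul, norm_mul, Complex.norm_conj]
          calc ‖ε R‖ * ‖ε R'‖ * ‖∑ m ∈ T, e ((R - R') * θ m)‖ ≤ 1 * 1 * ‖∑ m ∈ T, e ((R - R') * θ m)‖ := by
                gcongr
                · exact hε1 R
                · exact hε1 R'
            _ = _ := by ring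
      _ ≤ ∑ R ∈ S, K := sum_le_sum hK
      _ = _ := by rw [sum_const, nsmul_eq_mul]
  have h5 : ((S.card : ℝ) * v)^2 ≤ A * (S.card * K) := by
    calc ((S.card : ℝ) * v)^2 ≤ (∑ R ∈ S, ‖B R‖)^2 := pow_le_pow_left₀ (by positivity) h2 2
      _ ≤ A * ∑ m ∈ T, ‖G m‖^2 := by rw [h1]; exact h3
      _ ≤ _ := mul_le_mul_of_nonneg_left h4 hA0
  have h6 : (S.card : ℝ) * (S.card * v^2) ≤ S.card * (A * K) := by
    calc (S.card : ℝ) * (S.card * v^2) = ((S.card : ℝ) * v)^2 := by ring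
      _ ≤ _ := h5
      _ = _ := by ring
  exact le_of_mul_le_mul_left h6 hS0

/-- the block sum at a real point -/
noncomputable def Br (b : ℕ → ℂ) (j : ℕ) (R : ℝ) : ℂ := ∑ m ∈ blk j, b m * e (R * √(m:ℝ))

/-- a separated set in an interval has few points -/
lemma sep_card (S : Finset ℝ) {x L : ℝ} (hL : 0 ≤ L) (hS : ∀ R ∈ S, x ≤ R ∧ R ≤ x + L)
    (hsep : ∀ R ∈ S, ∀ R' ∈ S, R ≠ R' → 1 ≤ |R - R'|) : (S.card : ℝ) ≤ L + 1 := by
  have hinj : Set.InjOn (fun R : ℝ => ⌊R - x⌋₊) (S : Set ℝ) := by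
    intro R hR R' hR' h
    by_contra hne
    have h1 := hsep R hR R' hR' hne
    have a1 := hS R hR
    have a2 := hS R' hR'
    have b1 := Nat.floor_le (show 0 ≤ R - x by linarith)
    have b2 := Nat.lt_floor_add_one (R - x)
    have b3 := Nat.floor_le (show 0 ≤ R' - x by linarith)
    have b4 := Nat.lt_floor_add_one (R' - x)
    simp only at h
    rw [h] at b1 b2
    have : |R - R'| < 1 := by rw [abs_lt]; constructor <;> linarith
    linarith
  have hmaps : ∀ R ∈ S, ⌊R - x⌋₊ ∈ range (⌊L⌋₊ + 1) := by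
    intro R hR
    have a1 := hS R hR
    rw [mem_range]
    have : ⌊R - x⌋₊ ≤ ⌊L⌋₊ := Nat.floor_le_floor (by linarith)
    omega
  have h1 := card_le_card_of_injOn _ hmaps hinj
  rw [card_range] at h1
  have h2 := Nat.floor_le hL
  have h3 : (S.card : ℝ) ≤ ((⌊L⌋₊ + 1 : ℕ) : ℝ) := by exact_mod_cast h1
  push_cast at h3
  linarith

/-- the sum of the kernel over a separated set in a window -/
lemma ker_sum_real (j : ℕ) (S : Finset ℝ) {x H : ℝ} (hS : ∀ R ∈ S, x ≤ R ∧ R ≤ x + H)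
    (hsep : ∀ R ∈ S, ∀ R' ∈ S, R ≠ R' → 1 ≤ |R - R'|) (R : ℝ) (hR : R ∈ S) :
    ∑ R' ∈ S, ‖∑ m ∈ blk j, e ((R - R') * √(m:ℝ))‖ ≤
      100 * (4:ℝ)^j + S.card * (23 * √(H * √((4^j + 1 : ℕ) : ℝ) * (1 + Real.log ((4^j + 1 : ℕ) : ℝ)))) := by
  set M : ℕ := 4^j + 1 with hM
  have hM1 : 1 ≤ M := by rw [hM]; exact Nat.le_add_left _ _
  have hM1' : (1:ℝ) ≤ M := by exact_mod_cast hM1
  have h4 : (1:ℝ) ≤ (4:ℝ)^j := one_le_pow₀ (by norm_num)
  have hMr : (M:ℝ) = 4^j + 1 := by rw [hM]; push_cast; ring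
  have hlog : 0 ≤ Real.log M := Real.log_nonneg hM1'
  set s := √(M:ℝ) with hs
  have hs1 : 1 ≤ s := by rw [hs, Real.one_le_sqrt]; exact hM1'
  have hs2 : s^2 = M := Real.sq_sqrt (by positivity)
  have hsQ : s^2 ≤ 2 * (4:ℝ)^j := by rw [hs2, hMr]; linarith
  have hH0 : 0 ≤ H := by have := hS R hR; linarith
  have hker : ∀ t : ℝ, 0 < t → ‖∑ m ∈ blk j, e (t * √(m:ℝ))‖ ≤
      (if t ≤ s then 8 * s / t else 0) + 23 * √(t * s * (1 + Real.log M)) := by
    intro t ht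
    rw [blk_sum]
    exact ker ht hM1 (3 * 4^j) (by omega)
  have hterm : ∀ R' ∈ S, R' ≠ R → ‖∑ m ∈ blk j, e ((R - R') * √(m:ℝ))‖ ≤
      (if |R - R'| ≤ s then 8 * s else 0) + 23 * √(H * s * (1 + Real.log M)) := by
    intro R' hR' hne
    have h1 := hS R hR
    have h2 := hS R' hR'
    set t := |R - R'| with ht
    have hd1 : 1 ≤ t := hsep R hR R' hR' (Ne.symm hne)
    have hd2 : t ≤ H := by
      rw [ht, abs_le]
      constructor <;> linarith
    have ht0 : 0 < t := by linarith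
    have e1 : ‖∑ m ∈ blk j, e ((R - R') * √(m:ℝ))‖ = ‖∑ m ∈ blk j, e (t * √(m:ℝ))‖ := by
      rcases abs_cases (R - R') with ⟨h5, _⟩ | ⟨h5, _⟩
      · rw [ht, h5]
      · rw [← blk_neg t j, ht, h5]
        simp only [neg_neg]
    rw [e1]
    refine (hker t ht0).trans (add_le_add ?_ ?_)
    · split_ifs with h5
      · rw [div_le_iff₀ ht0]
        nlinarith
      · exact le_rfl
    · apply mul_le_mul_of_nonneg_left _ (by norm_num)
      apply Real.sqrt_le_sqrt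
      apply mul_le_mul_of_nonneg_right _ (by linarith)
      apply mul_le_mul_of_nonneg_right hd2 (by linarith)
  -- the diagonal
  have hdiag : ‖∑ m ∈ blk j, e ((R - R) * √(m:ℝ))‖ ≤ 3 * (4:ℝ)^j := by
    refine (norm_sum_le _ _).trans ?_
    simp only [norm_e, sum_const, blk, Nat.card_Ioc, nsmul_eq_mul, mul_one]
    have : 4^(j+1) - 4^j = 3 * 4^j := by rw [pow_succ]; omega
    rw [this]; push_cast; exact le_rfl
  -- the near terms
  have hcount : (((S.erase R).filter (fun R' : ℝ => |R - R'| ≤ s)).card : ℝ) ≤ 2 * s + 1 := by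
    apply sep_card (x := R - s) _ (by linarith)
    · intro R' hR'
      rw [mem_filter] at hR'
      have := abs_le.mp hR'.2
      constructor <;> linarith
    · intro R1 h1 R2 h2 hne
      rw [mem_filter] at h1 h2
      exact hsep R1 (mem_of_mem_erase h1.1) R2 (mem_of_mem_erase h2.1) hne
  rw [← add_sum_erase _ _ hR]
  have hE : ((S.erase R).card : ℝ) ≤ S.card := by exact_mod_cast card_erase_le
  set W := 23 * √(H * s * (1 + Real.log M)) with hW
  have hW0 : 0 ≤ W := by positivity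
  have hrest : ∑ R' ∈ S.erase R, ‖∑ m ∈ blk j, e ((R - R') * √(m:ℝ))‖ ≤
      (2 * s + 1) * (8 * s) + S.card * W := by
    calc _ ≤ ∑ R' ∈ S.erase R, ((if |R - R'| ≤ s then 8 * s else 0) + W) :=
          sum_le_sum (fun R' hR' => hterm R' (mem_of_mem_erase hR') (ne_of_mem_erase hR'))
      _ = ((S.erase R).filter (fun R' : ℝ => |R - R'| ≤ s)).card * (8 * s) + (S.erase R).card * W := by
          rw [sum_add_distrib, ← sum_filter, sum_const, sum_const, nsmul_eq_mul, nsmul_eq_mul]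
      _ ≤ _ := by
          apply add_le_add
          · exact mul_le_mul_of_nonneg_right hcount (by positivity)
          · exact mul_le_mul_of_nonneg_right hE hW0
  have hfin : (2 * s + 1) * (8 * s) ≤ 48 * (4:ℝ)^j := by nlinarith
  linarith

end Pool.Agent.H425R3.UI
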