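import Mathlib
import Pool.Agent.H425R3.UI.U1

open Finset
open Pool.Agent.H469R2.NK
open Pool.Agent.H425R3.MM

namespace Pool.Agent.H425R3.UI

/-- large values of a block at separated real points -/
theorem lvb_real {κ C1 : ℝ} (hκ : 0 < κ) (hκ1 : κ ≤ 1) (hC1 : 0 < C1) : ∃ C : ℝ, 0 < C ∧
    ∀ (j : ℕ) (S : Finset ℝ) (x L : ℝ) (b : ℕ → ℂ) (g v : ℝ), 0 ≤ L → (∀ R ∈ S, x ≤ R ∧ R ≤ x + L) →
    (∀ R ∈ S, ∀ R' ∈ S, R ≠ R' → 1 ≤ |R - R'|) → 0 < v → 0 ≤ g → g ≤ 1 →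
    (∀ m ∈ blk j, ‖b m‖ ≤ C1 * g * ((2:ℝ)^j) ^ (-(3/2) + κ)) → (∀ R ∈ S, v ≤ ‖Br b j R‖) →
    (S.card : ℝ) ≤ C * ((L + 1) * ((2:ℝ)^j) ^ (7 * κ) / v^6 + g^2 * ((2:ℝ)^j) ^ (1 + 2 * κ) / v^2) := by
  set c1 : ℝ := 100 with hc1
  have hc10 : 0 < c1 := by norm_num
  set c2 : ℝ := 23 * √(2 * (2 + 2/κ)) with hc2
  have hc20 : 0 ≤ c2 := by positivity
  set D : ℝ := 3 * C1^2 * (c1 + c2) + 1 with hD
  have hD0 : 0 < D := by positivity
  refine ⟨16 * D^3 + 2 * D, by positivity, ?_⟩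
  intro j P x L b g v hL0 hPx hsep hv hg0 hg1 hb hvP
  set Q : ℝ := (2:ℝ)^j with hQ
  have hQ1 : 1 ≤ Q := one_le_pow₀ (by norm_num)
  have hQ0 : 0 < Q := by linarith
  have h4Q : (4:ℝ)^j = Q^2 := four_eq j
  -- the l² norm
  have hl2 : ∑ m ∈ blk j, ‖b m‖^2 ≤ 3 * C1^2 * g^2 * Q ^ (-1 + 2 * κ) := by
    calc ∑ m ∈ blk j, ‖b m‖^2 ≤ ∑ m ∈ blk j, (C1 * g * Q ^ (-(3/2) + κ))^2 :=
          sum_le_sum (fun m hm => pow_le_pow_left₀ (norm_nonneg _) (hb m hm) 2)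
      _ = 3 * Q^2 * (C1 * g * Q ^ (-(3/2) + κ))^2 := by rw [sum_const, nsmul_eq_mul, blk_card, h4Q]
      _ = 3 * C1^2 * g^2 * (Q^2 * (Q ^ (-(3/2) + κ))^2) := by ring
      _ = _ := by
          congr 1
          rw [← Real.rpow_natCast Q 2, ← Real.rpow_natCast (Q ^ (-(3/2) + κ)) 2, ← Real.rpow_mul hQ0.le, ← Real.rpow_add hQ0]
          congr 1; push_cast; ring
  -- one window
  have hwin : ∀ (y H : ℝ) (S : Finset ℝ), 0 ≤ H → S ⊆ P → (∀ R ∈ S, y ≤ R ∧ R ≤ y + H) →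
      (S.card : ℝ) * v^2 ≤ D * (g^2 * Q ^ (1 + 2 * κ) + S.card * (√H * Q ^ (-(1/2) + 5/2 * κ))) := by
    intro y H S hH0 hSP hS
    have hsM : √(((4^j + 1 : ℕ)) : ℝ) ≤ 2 * Q := by
      rw [Real.sqrt_le_left (by positivity)]
      push_cast
      rw [h4Q]
      nlinarith
    have hW : 23 * √(H * √((4^j + 1 : ℕ) : ℝ) * (1 + Real.log ((4^j + 1 : ℕ) : ℝ))) ≤ c2 * (√H * Q ^ ((1 + κ)/2)) := by
      have hlog0 : 0 ≤ 1 + Real.log ((4^j + 1 : ℕ) : ℝ) := by
        have : (1:ℝ) ≤ ((4^j + 1 : ℕ) : ℝ) := by push_cast; have := pow_pos (show (0:ℝ) < 4 by norm_num) j; linarith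
        have := Real.log_nonneg this
        linarith
      have h1 : H * √((4^j + 1 : ℕ) : ℝ) * (1 + Real.log ((4^j + 1 : ℕ) : ℝ)) ≤ (2 * (2 + 2/κ)) * (H * Q ^ (1 + κ)) := by
        calc _ ≤ H * (2 * Q) * ((2 + 2/κ) * Q ^ κ) := by
              apply mul_le_mul _ (log_M_le hκ j) hlog0 (by positivity)
              exact mul_le_mul_of_nonneg_left hsM (by positivity)
          _ = (2 * (2 + 2/κ)) * (H * (Q * Q ^ κ)) := by ring
          _ = _ := by rw [Real.rpow_add hQ0, Real.rpow_one]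
      have h2 : √(H * √((4^j + 1 : ℕ) : ℝ) * (1 + Real.log ((4^j + 1 : ℕ) : ℝ))) ≤ √(2 * (2 + 2/κ)) * (√H * Q ^ ((1 + κ)/2)) := by
        refine (Real.sqrt_le_sqrt h1).trans (le_of_eq ?_)
        rw [Real.sqrt_mul (show 0 ≤ 2 * (2 + 2/κ) by positivity), Real.sqrt_mul hH0]
        congr 2
        rw [Real.sqrt_eq_rpow, ← Real.rpow_mul hQ0.le]
        congr 1; ring
      calc 23 * √(H * √((4^j + 1 : ℕ) : ℝ) * (1 + Real.log ((4^j + 1 : ℕ) : ℝ))) ≤
            23 * (√(2 * (2 + 2/κ)) * (√H * Q ^ ((1 + κ)/2))) := mul_le_mul_of_nonneg_left h2 (by norm_num)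
        _ = _ := by rw [hc2]; ring
    have hK : ∀ R ∈ S, ∑ R' ∈ S, ‖∑ m ∈ blk j, e ((R - R') * √(m:ℝ))‖ ≤ c1 * Q^2 + S.card * (c2 * (√H * Q ^ ((1 + κ)/2))) := by
      intro R hR
      refine (ker_sum_real j S hS (fun R hR R' hR' => hsep R (hSP hR) R' (hSP hR')) R hR).trans ?_
      rw [h4Q]
      apply add_le_add le_rfl
      exact mul_le_mul_of_nonneg_left hW (by positivity)
    have h1 := dual_real S (blk j) b (fun m => √(m:ℝ)) hv.le (by positivity) (fun R hR => hvP R (hSP hR)) hl2 hK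
    refine h1.trans ?_
    have e1 : 3 * C1^2 * g^2 * Q ^ (-1 + 2 * κ) * (c1 * Q^2 + S.card * (c2 * (√H * Q ^ ((1 + κ)/2)))) =
        3 * C1^2 * c1 * (g^2 * (Q ^ (-1 + 2 * κ) * Q^2)) + 3 * C1^2 * c2 * (g^2 * (S.card * (√H * (Q ^ (-1 + 2 * κ) * Q ^ ((1 + κ)/2))))) := by ring
    have e2 : Q ^ (-1 + 2 * κ) * Q^2 = Q ^ (1 + 2 * κ) := by
      rw [← Real.rpow_natCast Q 2, ← Real.rpow_add hQ0]; congr 1; push_cast; ring
    have e3 : Q ^ (-1 + 2 * κ) * Q ^ ((1 + κ)/2) = Q ^ (-(1/2) + 5/2 * κ) := by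
      rw [← Real.rpow_add hQ0]; congr 1; ring
    rw [e1, e2, e3]
    have hg2 : g^2 ≤ 1 := by nlinarith
    have i1 : g^2 * (S.card * (√H * Q ^ (-(1/2) + 5/2 * κ))) ≤ S.card * (√H * Q ^ (-(1/2) + 5/2 * κ)) := by
      calc _ ≤ 1 * (S.card * (√H * Q ^ (-(1/2) + 5/2 * κ))) := mul_le_mul_of_nonneg_right hg2 (by positivity)
        _ = _ := one_mul _
    have i2 : 3 * C1^2 * c1 ≤ D := by rw [hD]; nlinarith [mul_nonneg (sq_nonneg C1) hc20]
    have i3 : 3 * C1^2 * c2 ≤ D := by rw [hD]; nlinarith [mul_nonneg (sq_nonneg C1) hc10.le]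
    rw [mul_add D]
    apply add_le_add
    · exact mul_le_mul_of_nonneg_right i2 (by positivity)
    · exact mul_le_mul i3 i1 (by positivity) hD0.le
  have hPN : (P.card : ℝ) ≤ L + 1 := sep_card P hL0 hPx hsep
  have hL1 : 0 < L + 1 := by linarith
  set hst : ℝ := v^4 * Q ^ (1 - 5 * κ) / (4 * D^2) with hhst
  have hst0 : 0 < hst := by positivity
  have hmain : (P.card : ℝ) ≤ 16 * D^3 * ((L + 1) * Q ^ (7 * κ) / v^6) + 2 * D * (g^2 * Q ^ (1 + 2 * κ) / v^2) := by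
    rcases lt_or_ge hst 1 with hlt | hge
    · -- trivial
      have h1 : 1 ≤ 8 * D^3 * (Q ^ (7 * κ) / v^6) := by
        -- hst^(3/2) ≤ 1
        have h2 : hst ^ (3/2:ℝ) ≤ 1 := Real.rpow_le_one hst0.le hlt.le (by norm_num)
        have h3 : hst ^ (3/2:ℝ) = v^6 * Q ^ (3/2 - 15/2 * κ) / (8 * D^3) := by
          rw [hhst, Real.div_rpow (by positivity) (by positivity), Real.mul_rpow (by positivity) (by positivity),
            ← Real.rpow_mul hQ0.le]
          congr 1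
          · congr 1
            · rw [← Real.rpow_natCast v 4, ← Real.rpow_mul hv.le, ← Real.rpow_natCast v 6]; congr 1; norm_num
            · congr 1; ring
          · rw [show 4 * D^2 = (2 * D)^2 by ring, ← Real.rpow_natCast (2*D) 2, ← Real.rpow_mul (by positivity),
              show ((2:ℕ):ℝ) * (3/2) = ((3:ℕ):ℝ) by norm_num, Real.rpow_natCast]
            ring
        rw [h3, div_le_iff₀ (by positivity)] at h2
        rw [← mul_div_assoc, le_div_iff₀ (by positivity)]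
        have h4 : Q ^ (-(7 * κ)) ≤ Q ^ (3/2 - 15/2 * κ) := by
          apply Real.rpow_le_rpow_of_exponent_le hQ1; linarith
        have h5 : v^6 * Q ^ (-(7 * κ)) ≤ 8 * D^3 := by
          calc v^6 * Q ^ (-(7 * κ)) ≤ v^6 * Q ^ (3/2 - 15/2 * κ) := mul_le_mul_of_nonneg_left h4 (by positivity)
            _ ≤ _ := by linarith
        calc 1 * v^6 = (v^6 * Q ^ (-(7 * κ))) * Q ^ (7 * κ) := by
              rw [mul_assoc, ← Real.rpow_add hQ0]; simp
          _ ≤ (8 * D^3) * Q ^ (7 * κ) := mul_le_mul_of_nonneg_right h5 (by positivity)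
      have h3 : (L + 1) * 1 ≤ (L + 1) * (8 * D^3 * (Q ^ (7 * κ) / v^6)) := mul_le_mul_of_nonneg_left h1 hL1.le
      have h4 : (L + 1) * (8 * D^3 * (Q ^ (7 * κ) / v^6)) = 8 * D^3 * ((L + 1) * Q ^ (7 * κ) / v^6) := by ring
      have h5 : 0 ≤ D^3 * ((L + 1) * Q ^ (7 * κ) / v^6) := by positivity
      have h6 : 0 ≤ 2 * D * (g^2 * Q ^ (1 + 2 * κ) / v^2) := by positivity
      linarith
    · -- one window is small
      have hsm : D * (√hst * Q ^ (-(1/2) + 5/2 * κ)) ≤ v^2 / 2 := by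
        have h1 : √hst ≤ v^2 * Q ^ (1/2 - 5/2 * κ) / (2 * D) := by
          rw [Real.sqrt_le_left (by positivity)]
          apply le_of_eq
          rw [hhst, div_pow, mul_pow, ← pow_mul, mul_pow, ← Real.rpow_natCast (Q ^ (1/2 - 5/2 * κ)) 2, ← Real.rpow_mul hQ0.le]
          congr 2
          · congr 1; push_cast; ring
          · norm_num
        calc D * (√hst * Q ^ (-(1/2) + 5/2 * κ)) ≤ D * ((v^2 * Q ^ (1/2 - 5/2 * κ) / (2 * D)) * Q ^ (-(1/2) + 5/2 * κ)) := by gcongr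
          _ = v^2/2 * (Q ^ (1/2 - 5/2 * κ) * Q ^ (-(1/2) + 5/2 * κ)) := by field_simp
          _ = v^2/2 := by
              rw [← Real.rpow_add hQ0, show 1/2 - 5/2 * κ + (-(1/2) + 5/2 * κ) = 0 by ring, Real.rpow_zero, mul_one]
      have hone : ∀ i : ℕ, ((P.filter (fun R => ⌊(R - x) / hst⌋₊ = i)).card : ℝ) ≤ 2 * D * (g^2 * Q ^ (1 + 2 * κ) / v^2) := by
        intro i
        set S := P.filter (fun R => ⌊(R - x) / hst⌋₊ = i) with hS
        have hsub : ∀ R ∈ S, x + i * hst ≤ R ∧ R ≤ (x + i * hst) + hst := by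
          intro R hR
          rw [hS, mem_filter] at hR
          have h0 : 0 ≤ (R - x) / hst := div_nonneg (by linarith [(hPx R hR.1).1]) hst0.le
          have h1 := Nat.floor_le h0
          have h2 := Nat.lt_floor_add_one ((R - x) / hst)
          rw [hR.2] at h1 h2
          rw [le_div_iff₀ hst0] at h1
          rw [div_lt_iff₀ hst0] at h2
          constructor <;> nlinarith
        have h1 := hwin (x + i * hst) hst S hst0.le (filter_subset _ _) hsub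
        have h2 : (S.card : ℝ) * (D * (√hst * Q ^ (-(1/2) + 5/2 * κ))) ≤ S.card * (v^2/2) := mul_le_mul_of_nonneg_left hsm (by positivity)
        have h3 : (S.card : ℝ) * v^2 ≤ 2 * D * (g^2 * Q ^ (1 + 2 * κ)) := by nlinarith
        rw [← mul_div_assoc, le_div_iff₀ (by positivity)]
        exact h3
      have hcard : (P.card : ℝ) ≤ ∑ i ∈ range (⌊L / hst⌋₊ + 1), ((P.filter (fun R => ⌊(R - x) / hst⌋₊ = i)).card : ℝ) := by
        have : P.card = ∑ i ∈ range (⌊L / hst⌋₊ + 1), (P.filter (fun R => ⌊(R - x) / hst⌋₊ = i)).card := by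
          apply card_eq_sum_card_fiberwise
          intro R hR
          rw [mem_coe] at hR
          rw [mem_coe, mem_range]
          have := hPx R hR
          have : ⌊(R - x) / hst⌋₊ ≤ ⌊L / hst⌋₊ := Nat.floor_le_floor (div_le_div_of_nonneg_right (by linarith) hst0.le)
          exact Nat.lt_succ_of_le this
        rw [this]; push_cast; exact le_rfl
      have h1 : (P.card : ℝ) ≤ (L / hst + 1) * (2 * D * (g^2 * Q ^ (1 + 2 * κ) / v^2)) := by
        refine hcard.trans ((sum_le_sum (fun i _ => hone i)).trans ?_)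
        rw [sum_const, card_range, nsmul_eq_mul]
        apply mul_le_mul_of_nonneg_right _ (by positivity)
        push_cast
        have := Nat.floor_le (show 0 ≤ L / hst by positivity)
        linarith
      have h2 : L / hst ≤ 2 * (L + 1) / hst := by
        apply div_le_div_of_nonneg_right _ hst0.le
        linarith
      have hg2 : g^2 ≤ 1 := by nlinarith
      have h3 : 2 * (L + 1) / hst * (2 * D * (g^2 * Q ^ (1 + 2 * κ) / v^2)) ≤ 16 * D^3 * ((L + 1) * Q ^ (7 * κ) / v^6) := by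
        have e1 : 2 * (L + 1) / hst * (2 * D * (g^2 * Q ^ (1 + 2 * κ) / v^2)) =
            16 * D^3 * g^2 * ((L + 1) * (Q ^ (1 + 2 * κ) / Q ^ (1 - 5 * κ)) / v^6) := by
          rw [hhst]; field_simp; ring
        rw [e1, ← Real.rpow_sub hQ0, show 1 + 2 * κ - (1 - 5 * κ) = 7 * κ by ring]
        have h4 : 0 ≤ 16 * D^3 * ((L + 1) * Q ^ (7 * κ) / v^6) := by positivity
        calc 16 * D^3 * g^2 * ((L + 1) * Q ^ (7 * κ) / v^6) = g^2 * (16 * D^3 * ((L + 1) * Q ^ (7 * κ) / v^6)) := by ring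
          _ ≤ 1 * (16 * D^3 * ((L + 1) * Q ^ (7 * κ) / v^6)) := mul_le_mul_of_nonneg_right hg2 h4
          _ = _ := one_mul _
      calc (P.card : ℝ) ≤ (L / hst + 1) * (2 * D * (g^2 * Q ^ (1 + 2 * κ) / v^2)) := h1
        _ ≤ (2 * (L + 1) / hst + 1) * (2 * D * (g^2 * Q ^ (1 + 2 * κ) / v^2)) := by
            apply mul_le_mul_of_nonneg_right _ (by positivity)
            linarith
        _ = 2 * (L + 1) / hst * (2 * D * (g^2 * Q ^ (1 + 2 * κ) / v^2)) + 2 * D * (g^2 * Q ^ (1 + 2 * κ) / v^2) := by ring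
        _ ≤ _ := by linarith
  refine hmain.trans ?_
  have h1 : 0 ≤ (L + 1) * Q ^ (7 * κ) / v^6 := by positivity
  have h2 : 0 ≤ g^2 * Q ^ (1 + 2 * κ) / v^2 := by positivity
  have h3 : 0 ≤ 2 * D * ((L + 1) * Q ^ (7 * κ) / v^6) := by positivity
  have h4 : 0 ≤ 16 * D^3 * (g^2 * Q ^ (1 + 2 * κ) / v^2) := by positivity
  nlinarith

end Pool.Agent.H425R3.UI
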