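import Mathlib
import Pool.Agent.H425R3.UI.U2
import Pool.Agent.H425R3.MM.K6

open Finset Filter Topology
open Pool.Agent.H469R2.NK
open Pool.Agent.H452R2
open Pool.Agent.H383
open Pool.Agent.H383.Gauss Pool.Agent.H383.AP
open Pool.Agent.H425R3.MM

namespace Pool.Agent.H425R3.UI

/-- large values of a sum of blocks at separated real points -/
theorem tb_real {κ C1 : ℝ} (hκ : 0 < κ) (hκ1 : κ ≤ 1) (hC1 : 0 < C1) : ∃ C : ℝ, 0 < C ∧
    ∀ (J : ℕ) (S : Finset ℝ) (x L δ v : ℝ) (b : ℕ → ℂ), 0 ≤ L → (∀ R ∈ S, x ≤ R ∧ R ≤ x + L) →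
    (∀ R ∈ S, ∀ R' ∈ S, R ≠ R' → 1 ≤ |R - R'|) → 0 < δ → δ ≤ 1 → 0 < v →
    (∀ m : ℕ, 1 ≤ m → ‖b m‖ ≤ C1 * Win.hw κ δ (√(m:ℝ))) → (∀ R ∈ S, v ≤ ∑ j ∈ range J, ‖Br b j R‖) →
    (S.card : ℝ) ≤ C * (J:ℝ)^7 * ((L + 1) * ((2:ℝ)^J) ^ (7 * κ) * v ^ (-6:ℝ) + δ ^ (-(1 + 2 * κ)) * v ^ (-2:ℝ)) := by
  obtain ⟨C, hC, hL⟩ := lvb_real hκ hκ1 hC1
  refine ⟨C, hC, ?_⟩
  intro J S x L δ v b hL0 hS hsep hδ0 hδ1 hv hb hvS
  rcases Nat.eq_zero_or_pos J with rfl | hJ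
  · have : S = ∅ := by
      rw [eq_empty_iff_forall_notMem]
      intro R hR
      have := hvS R hR
      rw [range_zero, sum_empty] at this
      linarith
    rw [this]; simp
  have hJ1 : (1:ℝ) ≤ J := by exact_mod_cast hJ
  have hJ0 : (0:ℝ) < J := by linarith
  set W : ℝ := (L + 1) * ((2:ℝ)^J) ^ (7 * κ) * v ^ (-6:ℝ) + δ ^ (-(1 + 2 * κ)) * v ^ (-2:ℝ) with hW
  have hv6 : v ^ (-6:ℝ) = (v^6)⁻¹ := by
    rw [← Real.rpow_natCast, ← Real.rpow_neg hv.le]; norm_num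
  have hv2 : v ^ (-2:ℝ) = (v^2)⁻¹ := by
    rw [← Real.rpow_natCast, ← Real.rpow_neg hv.le]; norm_num
  have hone : ∀ j ∈ range J, ((S.filter (fun R => v / J ≤ ‖Br b j R‖)).card : ℝ) ≤ C * (J:ℝ)^6 * W := by
    intro j hj
    rw [mem_range] at hj
    set Q : ℝ := (2:ℝ)^j with hQ
    have hQ1 : 1 ≤ Q := one_le_pow₀ (by norm_num)
    have hQ0 : 0 < Q := by linarith
    have hQJ : Q ≤ (2:ℝ)^J := pow_le_pow_right₀ (by norm_num) hj.le
    set g : ℝ := min 1 ((δ * Q) ^ (-(3/2):ℝ)) with hg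
    have hg0 : 0 < g := by positivity
    have hg1 : g ≤ 1 := min_le_left _ _
    have hbB : ∀ m ∈ blk j, ‖b m‖ ≤ C1 * g * Q ^ (-(3/2) + κ) := by
      intro m hm
      unfold blk at hm
      rw [mem_Ioc] at hm
      have hm1 : 1 ≤ m := by
        have : 0 < 4^j := by positivity
        omega
      have hsQ : Q ≤ √(m:ℝ) := by
        apply Real.le_sqrt_of_sq_le
        rw [← four_eq j]
        exact_mod_cast hm.1.le
      refine (hb m hm1).trans ?_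
      unfold Win.hw
      rw [mul_assoc]
      apply mul_le_mul_of_nonneg_left _ hC1.le
      rw [mul_comm]
      apply mul_le_mul _ _ (by positivity) hg0.le
      · apply min_le_min le_rfl
        apply Real.rpow_le_rpow_of_nonpos (by positivity) _ (by norm_num)
        exact mul_le_mul_of_nonneg_left hsQ hδ0.le
      · exact Real.rpow_le_rpow_of_nonpos hQ0 hsQ (by linarith)
    have h1 := hL j (S.filter (fun R => v / J ≤ ‖Br b j R‖)) x L b g (v/J) hL0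
      (fun R hR => hS R (mem_of_mem_filter R hR))
      (fun R hR R' hR' => hsep R (mem_of_mem_filter R hR) R' (mem_of_mem_filter R' hR')) (by positivity) hg0.le hg1 hbB
      (fun R hR => (mem_filter.mp hR).2)
    refine h1.trans ?_
    have hgQ : g^2 * Q ^ (1 + 2 * κ) ≤ δ ^ (-(1 + 2 * κ)) := by
      have i1 : g^2 ≤ (δ * Q) ^ (-(1 + 2 * κ)) := by
        rcases le_total (δ * Q) 1 with h7 | h7
        · calc g^2 ≤ 1 := pow_le_one₀ hg0.le hg1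
            _ ≤ _ := Real.one_le_rpow_of_pos_of_le_one_of_nonpos (by positivity) h7 (by linarith)
        · calc g^2 ≤ ((δ * Q) ^ (-(3/2):ℝ))^2 := pow_le_pow_left₀ hg0.le (min_le_right _ _) 2
            _ = (δ * Q) ^ (-3:ℝ) := by
                rw [← Real.rpow_natCast, ← Real.rpow_mul (by positivity)]; norm_num
            _ ≤ _ := Real.rpow_le_rpow_of_exponent_le h7 (by linarith)
      calc g^2 * Q ^ (1 + 2 * κ) ≤ (δ * Q) ^ (-(1 + 2 * κ)) * Q ^ (1 + 2 * κ) := mul_le_mul_of_nonneg_right i1 (by positivity)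
        _ = δ ^ (-(1 + 2 * κ)) * (Q ^ (-(1 + 2 * κ)) * Q ^ (1 + 2 * κ)) := by rw [Real.mul_rpow hδ0.le hQ0.le]; ring
        _ = _ := by rw [← Real.rpow_add hQ0]; simp
    have hQ7 : Q ^ (7 * κ) ≤ ((2:ℝ)^J) ^ (7 * κ) := Real.rpow_le_rpow hQ0.le hQJ (by positivity)
    have hJ26 : (J:ℝ)^2 ≤ (J:ℝ)^6 := pow_le_pow_right₀ hJ1 (by norm_num)
    have e1 : (L + 1) * Q ^ (7 * κ) / (v/J)^6 = (J:ℝ)^6 * ((L + 1) * Q ^ (7 * κ) * (v^6)⁻¹) := by
      field_simp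
    have e2 : g^2 * Q ^ (1 + 2 * κ) / (v/J)^2 = (J:ℝ)^2 * (g^2 * Q ^ (1 + 2 * κ) * (v^2)⁻¹) := by
      field_simp
    rw [e1, e2, hW, hv6, hv2]
    have k1 : (J:ℝ)^6 * ((L + 1) * Q ^ (7 * κ) * (v^6)⁻¹) ≤ (J:ℝ)^6 * ((L + 1) * ((2:ℝ)^J) ^ (7 * κ) * (v^6)⁻¹) := by
      have : 0 < L + 1 := by linarith
      gcongr
    have k2 : (J:ℝ)^2 * (g^2 * Q ^ (1 + 2 * κ) * (v^2)⁻¹) ≤ (J:ℝ)^6 * (δ ^ (-(1 + 2 * κ)) * (v^2)⁻¹) := by
      apply mul_le_mul hJ26 _ (by positivity) (by positivity)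
      exact mul_le_mul_of_nonneg_right hgQ (by positivity)
    calc _ ≤ C * ((J:ℝ)^6 * ((L + 1) * ((2:ℝ)^J) ^ (7 * κ) * (v^6)⁻¹) + (J:ℝ)^6 * (δ ^ (-(1 + 2 * κ)) * (v^2)⁻¹)) :=
          mul_le_mul_of_nonneg_left (add_le_add k1 k2) hC.le
      _ = _ := by ring
  have hsub : S ⊆ (range J).biUnion (fun j => S.filter (fun R => v / J ≤ ‖Br b j R‖)) := by
    intro R hR
    rw [mem_biUnion]
    by_contra hcon
    push Not at hcon
    have h1 : ∀ j ∈ range J, ‖Br b j R‖ < v / J := by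
      intro j hj
      have := hcon j hj
      rw [mem_filter] at this
      by_contra h2
      push Not at h2
      exact this ⟨hR, h2⟩
    have h2 : ∑ j ∈ range J, ‖Br b j R‖ < ∑ _j ∈ range J, v / J :=
      sum_lt_sum_of_nonempty ⟨0, mem_range.mpr hJ⟩ h1
    rw [sum_const, card_range, nsmul_eq_mul, mul_div_cancel₀ _ hJ0.ne'] at h2
    linarith [hvS R hR]
  have hcard := (card_le_card hsub).trans card_biUnion_le
  have hcard' : (S.card : ℝ) ≤ ∑ j ∈ range J, ((S.filter (fun R => v / J ≤ ‖Br b j R‖)).card : ℝ) := by exact_mod_cast hcard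
  refine hcard'.trans ((sum_le_sum hone).trans (le_of_eq ?_))
  rw [sum_const, card_range, nsmul_eq_mul]
  ring

variable {E : ℝ → ℝ} {a : ℕ → ℝ} {φ : ℝ} {w : ℝ → ℂ}

/-- the coefficients of the smoothed series -/
noncomputable def cr (a : ℕ → ℝ) (φ : ℝ) (w : ℝ → ℂ) (y δ : ℝ) (m : ℕ) : ℂ := Gen.ac a φ y m * w (√(m:ℝ) * δ)

lemma wt_cr (y R δ : ℝ) (m : ℕ) : GW.wt a φ w (R + y) δ m = (cr a φ w y δ m * e (R * √(m:ℝ))).re := by
  unfold GW.wt cr e Gen.ac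
  rw [← Complex.re_ofReal_mul]
  congr 1
  have : Complex.exp (((2 * Real.pi * ((R + y) * √(m:ℝ)) - φ : ℝ) : ℂ) * Complex.I) =
      Complex.exp (((2 * Real.pi * (y * √(m:ℝ)) - φ : ℝ) : ℂ) * Complex.I) *
      Complex.exp (((2 * Real.pi * (R * √(m:ℝ)) : ℝ) : ℂ) * Complex.I) := by
    rw [← Complex.exp_add]; congr 1; push_cast; ring
  rw [this]; ring

lemma blk_cr_le (y R δ : ℝ) (j : ℕ) : |∑ m ∈ blk j, GW.wt a φ w (R + y) δ m| ≤ ‖Br (cr a φ w y δ) j R‖ := by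
  have h2 : ∑ m ∈ blk j, GW.wt a φ w (R + y) δ m = (Br (cr a φ w y δ) j R).re := by
    unfold Br
    rw [Complex.re_sum]
    exact sum_congr rfl (fun m _ => wt_cr y R δ m)
  rw [h2]
  exact Complex.abs_re_le_norm _

/-- the number of dyadic blocks -/
lemma exists_J {κ : ℝ} (hκ : 0 < κ) : ∃ C : ℝ, 0 < C ∧ ∀ X : ℝ, 1 ≤ X → ∃ J : ℕ, X ≤ (2:ℝ)^J ∧ (2:ℝ)^J ≤ 2 * X ∧ (J:ℝ) ≤ C * X ^ κ := by
  refine ⟨2 + 2/κ, by positivity, ?_⟩
  intro X hX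
  obtain ⟨n, hn1, hn2⟩ := exists_nat_pow_near hX (by norm_num : (1:ℝ) < 2)
  refine ⟨n + 1, hn2.le, by rw [pow_succ]; linarith, ?_⟩
  have hX0 : 0 < X := by linarith
  have h1 : (n:ℝ) * Real.log 2 ≤ Real.log X := by
    rw [← Real.log_pow]
    exact Real.log_le_log (by positivity) hn1
  have h2 := Real.log_le_rpow_div hX0.le hκ
  have h3 : (1:ℝ)/2 ≤ Real.log 2 := by have := Real.log_two_gt_d9; linarith
  have h4 : (n:ℝ) * (1/2) ≤ X ^ κ / κ := by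
    calc (n:ℝ) * (1/2) ≤ n * Real.log 2 := mul_le_mul_of_nonneg_left h3 (Nat.cast_nonneg n)
      _ ≤ _ := h1.trans h2
  have h5 : 1 ≤ X ^ κ := Real.one_le_rpow hX hκ.le
  have h6 : 2 * (X ^ κ / κ) = 2/κ * X ^ κ := by ring
  push_cast
  nlinarith

end Pool.Agent.H425R3.UI
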