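import Mathlib
import Pool.Agent.H425R3.UI.U3

open Finset Filter Topology
open Pool.Agent.H469R2.NK
open Pool.Agent.H452R2
open Pool.Agent.H383
open Pool.Agent.H383.Gauss Pool.Agent.H383.AP
open Pool.Agent.H425R3.MM

namespace Pool.Agent.H425R3.UI

variable {E : ℝ → ℝ} {a : ℕ → ℝ} {φ : ℝ} {w : ℝ → ℂ}

/-- large values at separated real points -/
theorem lv_real (ha : Win.Bdw a) (ha0 : a 0 = 0) (hw : GW.Wt w) {κ₁ κ₂ : ℝ} (hS : Win.SandW E a φ w κ₁ κ₂)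
    {ε : ℝ} (hε : 0 < ε) :
    ∃ C : ℝ, 0 < C ∧ ∃ X0 : ℕ, ∀ X : ℝ, (X0:ℝ) ≤ X → ∀ L : ℝ, 1 ≤ L → L ≤ X →
    ∀ S : Finset ℝ, (∀ R ∈ S, X ≤ R ∧ R ≤ X + L) → (∀ R ∈ S, ∀ R' ∈ S, R ≠ R' → 1 ≤ |R - R'|) →
    ∀ v : ℝ, 1 ≤ v → (∀ R ∈ S, v ≤ |E R|) →
    (S.card : ℝ) ≤ C * X ^ ε * (L * v ^ (-6:ℝ) + X ^ (1/2:ℝ) * v ^ (-3:ℝ)) := by
  have hE0 := supE ha ha0 hw hS (η := 1/100) (by norm_num) (by norm_num)
  obtain ⟨Cs, hCs, hsup⟩ := hE0
  set ε1 := min ε 1 with hε1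
  have hε10 : 0 < ε1 := by positivity
  set κ := ε1 / 200 with hκd
  have hκ : 0 < κ := by positivity
  have hε11 : ε1 ≤ 1 := min_le_right _ _
  have hε1ε : ε1 ≤ ε := min_le_left _ _
  have hκ1 : κ ≤ 1/200 := by rw [hκd]; linarith
  have hκε : 200 * κ ≤ ε := by rw [hκd]; linarith
  obtain ⟨Ca, hCa, haC⟩ := ha (κ/2) (by positivity)
  obtain ⟨Cw, hCw, hwd⟩ := hw.dec
  obtain ⟨Cb, hCb, hTB⟩ := tb_real (κ := κ) (C1 := Ca * (Cw + 1)) hκ (by linarith) (by positivity)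
  obtain ⟨Ct, hCt, htail⟩ := GW.WS_tail (a := a) (φ := φ) ha.Bd ha0 hw
  obtain ⟨CJ, hCJ, hJex⟩ := exists_J hκ
  obtain ⟨C0, hC0, hS⟩ := hS (κ/2) (by positivity)
  set V0 : ℝ := 8 * |a 1| + 1 with hV0
  have hV01 : 1 ≤ V0 := by have := abs_nonneg (a 1); rw [hV0]; linarith
  obtain ⟨Z1, hZ1⟩ := ev_small (2 * C0) (y := κ/2) (η := 1/24) (by positivity) (by norm_num)
  obtain ⟨Z2, hZ2⟩ := ev_small C0 (y := 1/5) (η := 1/24) (by norm_num) (by norm_num)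
  obtain ⟨Z3, hZ3⟩ := ev_small C0 (y := 3/25) (η := 1/24) (by norm_num) (by norm_num)
  obtain ⟨Z4, hZ4⟩ := ev_small Ct (y := 1/5) (η := 1/8) (by norm_num) (by norm_num)
  obtain ⟨Z5, hZ5⟩ := ev_small (2 * Cs) (y := 7/300) (η := 1/2) (by norm_num) (by norm_num)
  obtain ⟨Z6, hZ6⟩ := ev_small 1 (y := 3/10) (η := 1/2) (by norm_num) (by norm_num)
  set CC : ℝ := Cb * CJ^7 * (4 * 4) * (64 + 4) * 2 with hCC
  have hCC0 : 0 < CC := by positivity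
  refine ⟨2 * V0 ^ (6:ℝ) + CC, by positivity, Z1 + Z2 + Z3 + Z4 + Z5 + Z6 + 4, ?_⟩
  intro X hX L hL hLX S hSX hsep v hv hvE
  have hX4 : (4:ℝ) ≤ X := by
    have : ((4:ℕ):ℝ) ≤ ((Z1 + Z2 + Z3 + Z4 + Z5 + Z6 + 4 : ℕ) : ℝ) := by exact_mod_cast (by omega : 4 ≤ Z1 + Z2 + Z3 + Z4 + Z5 + Z6 + 4)
    push_cast at this hX ⊢
    linarith
  have hX0 : 0 < X := by linarith
  have hX1 : 1 ≤ X := by linarith
  have hge : ∀ k : ℕ, k ≤ Z1 + Z2 + Z3 + Z4 + Z5 + Z6 + 4 → (k:ℝ) ≤ X := fun k hk => le_trans (by exact_mod_cast hk) hX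
  have z1 := hZ1 X (hge Z1 (by omega))
  have z2 := hZ2 X (hge Z2 (by omega))
  have z3 := hZ3 X (hge Z3 (by omega))
  have z4 := hZ4 X (hge Z4 (by omega))
  have z5 := hZ5 X (hge Z5 (by omega))
  have z6 := hZ6 X (hge Z6 (by omega))
  have hv0 : 0 < v := by linarith
  have hL0 : 0 < L := by linarith
  have hcardL : (S.card : ℝ) ≤ L + 1 := sep_card S hL0.le hSX hsep
  have hXε : 1 ≤ X ^ ε := Real.one_le_rpow hX1 hε.le
  have hT1 : 0 ≤ L * v ^ (-6:ℝ) := by positivity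
  have hT2 : 0 ≤ X ^ (1/2:ℝ) * v ^ (-3:ℝ) := by positivity
  have hVp : 0 < V0 ^ (6:ℝ) := by positivity
  -- small v
  rcases lt_or_ge v V0 with hvV | hvV
  · have h1 : 1 ≤ V0 ^ (6:ℝ) * v ^ (-6:ℝ) := by
      rw [Real.rpow_neg hv0.le, ← div_eq_mul_inv, le_div_iff₀ (by positivity), one_mul]
      exact Real.rpow_le_rpow hv0.le hvV.le (by norm_num)
    have h2 : L * 1 ≤ L * (V0 ^ (6:ℝ) * v ^ (-6:ℝ)) := mul_le_mul_of_nonneg_left h1 hL0.le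
    have h3 : (S.card : ℝ) ≤ 2 * V0 ^ (6:ℝ) * (L * v ^ (-6:ℝ)) := by nlinarith
    calc (S.card : ℝ) ≤ 2 * V0 ^ (6:ℝ) * (L * v ^ (-6:ℝ)) := h3
      _ = 2 * V0 ^ (6:ℝ) * 1 * (L * v ^ (-6:ℝ)) := by ring
      _ ≤ (2 * V0 ^ (6:ℝ) + CC) * X ^ ε * (L * v ^ (-6:ℝ) + X ^ (1/2:ℝ) * v ^ (-3:ℝ)) := by
          apply mul_le_mul _ (by linarith) hT1 (by positivity)
          apply mul_le_mul (by linarith) hXε (by norm_num) (by positivity)
  -- large v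
  rcases lt_or_ge (X ^ (1/5:ℝ)) v with hvZ | hvZ
  · have hzero : S = ∅ := by
      rw [eq_empty_iff_forall_notMem]
      intro R hR
      have h0 := hSX R hR
      have hR4 : 4 ≤ R := by linarith
      have hR0 : 0 < R := by linarith
      have hR2 : R ≤ 2 * X := by linarith
      have h2 := hsup R R hR4 (by rw [sub_self, abs_zero]; positivity)
      have h3 := hvE R hR
      have h4 : Cs * R ^ (1/6 + 1/100:ℝ) ≤ (1/2) * X ^ (1/5:ℝ) := by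
        calc Cs * R ^ (1/6 + 1/100:ℝ) ≤ Cs * (2 * X) ^ (1/6 + 1/100:ℝ) := by gcongr
          _ = Cs * (2 ^ (1/6 + 1/100:ℝ) * X ^ (1/6 + 1/100:ℝ)) := by rw [Real.mul_rpow (by norm_num) hX0.le]
          _ ≤ Cs * (2 * X ^ (1/6 + 1/100:ℝ)) := by
              gcongr
              calc (2:ℝ) ^ (1/6 + 1/100:ℝ) ≤ 2 ^ (1:ℝ) := Real.rpow_le_rpow_of_exponent_le (by norm_num) (by norm_num)
                _ = 2 := Real.rpow_one _
          _ = (2 * Cs * X ^ (-(7/300):ℝ)) * X ^ (1/5:ℝ) := by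
              rw [mul_assoc (2 * Cs), ← Real.rpow_add hX0]
              norm_num
              ring
          _ ≤ (1/2) * X ^ (1/5:ℝ) := mul_le_mul_of_nonneg_right z5 (by positivity)
      have h5 : 0 < X ^ (1/5:ℝ) := by positivity
      linarith
    rw [hzero, card_empty, Nat.cast_zero]
    positivity
  -- the main range
  set δ : ℝ := v * X ^ (-(1/2 + κ)) with hδ
  have hδ0 : 0 < δ := by positivity
  have hXκ : 0 < X ^ (-(1/2 + κ)) := by positivity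
  have hδX : X ^ (-(1/2 + κ)) ≤ δ := by rw [hδ]; nlinarith
  have hδ310 : δ ≤ X ^ (-(3/10):ℝ) := by
    calc δ ≤ X ^ (1/5:ℝ) * X ^ (-(1/2 + κ)) := by rw [hδ]; exact mul_le_mul_of_nonneg_right hvZ hXκ.le
      _ = X ^ (1/5 + -(1/2 + κ)) := by rw [← Real.rpow_add hX0]
      _ ≤ _ := Real.rpow_le_rpow_of_exponent_le hX1 (by linarith)
  have hδ12 : δ ≤ 1/2 := by linarith
  have hδ1 : δ ≤ 1 := by linarith
  obtain ⟨J, hJ1, hJ2, hJ3⟩ := hJex X hX1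
  -- coefficients
  have hbb : ∀ y : ℝ, ∀ m : ℕ, 1 ≤ m → ‖cr a φ w y δ m‖ ≤ Ca * (Cw + 1) * Win.hw κ δ (√(m:ℝ)) := by
    intro y m hm
    have hm0 : (0:ℝ) < m := by exact_mod_cast hm
    have hs : 0 < √(m:ℝ) := Real.sqrt_pos.mpr hm0
    unfold cr
    rw [norm_mul, Gen.norm_ac]
    unfold Win.hw
    have h2 := haC m hm
    have h5 : ‖w (√(m:ℝ) * δ)‖ ≤ (Cw + 1) * min 1 ((δ * √(m:ℝ)) ^ (-(3/2):ℝ)) := by
      have h3 := hw.one (√(m:ℝ) * δ) (by positivity)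
      have h4 := hwd (√(m:ℝ) * δ) (by positivity)
      set y := √(m:ℝ) * δ with hy
      have hy0 : 0 < y := by positivity
      rw [show δ * √(m:ℝ) = y by rw [hy]; ring]
      rcases min_choice (1:ℝ) (y ^ (-(3/2):ℝ)) with hc | hc
      · rw [hc]; linarith
      · rw [hc]
        have : 0 ≤ y ^ (-(3/2):ℝ) := by positivity
        linarith
    have h6 : (m:ℝ) ^ (-(3/4) + κ/2) = (√(m:ℝ)) ^ (-(3/2) + κ) := by
      rw [Real.sqrt_eq_rpow, ← Real.rpow_mul hm0.le]; congr 1; ring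
    rw [h6] at h2
    calc |a m| * ‖w (√(m:ℝ) * δ)‖ ≤ (Ca * (√(m:ℝ)) ^ (-(3/2) + κ)) * ((Cw + 1) * min 1 ((δ * √(m:ℝ)) ^ (-(3/2):ℝ))) :=
          mul_le_mul h2 h5 (norm_nonneg _) (by positivity)
      _ = _ := by ring
  -- the smoothed series
  have hWS : ∀ (y R : ℝ), |GW.WS a φ w (R + y) δ| ≤ |a 1| + ∑ j ∈ range J, ‖Br (cr a φ w y δ) j R‖ + 1/8 := by
    intro y R
    have t1 := htail δ hδ0 (R + y) (2^J) Nat.one_le_two_pow
    have e4 : ((2^J)^2 : ℕ) = 4^J := by rw [← pow_mul, mul_comm, pow_mul]; norm_num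
    rw [e4, MM.sum_blocks] at t1
    have t2 : Ct * δ ^ (-(3/2):ℝ) * ((2^J : ℕ):ℝ) ^ (-(24/25):ℝ) ≤ 1/8 := by
      have i1 : δ ^ (-(3/2):ℝ) ≤ X ^ (3/4 + 3/2 * κ) := by
        calc δ ^ (-(3/2):ℝ) ≤ (X ^ (-(1/2 + κ))) ^ (-(3/2):ℝ) := Real.rpow_le_rpow_of_nonpos hXκ hδX (by norm_num)
          _ = _ := by rw [← Real.rpow_mul hX0.le]; congr 1; ring
      have i2 : ((2^J : ℕ):ℝ) ^ (-(24/25):ℝ) ≤ X ^ (-(24/25):ℝ) := by
        apply Real.rpow_le_rpow_of_nonpos hX0 _ (by norm_num)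
        push_cast; exact hJ1
      calc Ct * δ ^ (-(3/2):ℝ) * ((2^J : ℕ):ℝ) ^ (-(24/25):ℝ) ≤ Ct * X ^ (3/4 + 3/2 * κ) * X ^ (-(24/25):ℝ) := by gcongr
        _ = Ct * X ^ (3/4 + 3/2 * κ + -(24/25)) := by rw [mul_assoc, ← Real.rpow_add hX0]
        _ ≤ Ct * X ^ (-(1/5):ℝ) := by
            apply mul_le_mul_of_nonneg_left _ hCt.le
            exact Real.rpow_le_rpow_of_exponent_le hX1 (by linarith)
        _ ≤ _ := z4
    have t3 : |GW.wt a φ w (R + y) δ 1| ≤ |a 1| := by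
      refine (GW.abs_wt_le _ _ _).trans ?_
      have := hw.one (√((1:ℕ):ℝ) * δ) (by rw [Nat.cast_one, Real.sqrt_one, one_mul]; exact hδ0)
      calc |a 1| * ‖w (√((1:ℕ):ℝ) * δ)‖ ≤ |a 1| * 1 := mul_le_mul_of_nonneg_left this (abs_nonneg _)
        _ = _ := mul_one _
    have t4 : |∑ j ∈ range J, ∑ m ∈ blk j, GW.wt a φ w (R + y) δ m| ≤ ∑ j ∈ range J, ‖Br (cr a φ w y δ) j R‖ :=
      (abs_sum_le_sum_abs _ _).trans (sum_le_sum (fun j _ => blk_cr_le _ _ _ _))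
    set A := GW.WS a φ w (R + y) δ
    set B := GW.wt a φ w (R + y) δ 1
    set D := ∑ j ∈ range J, ∑ m ∈ blk j, GW.wt a φ w (R + y) δ m
    have t5 : |A| ≤ |A - (B + D)| + |B| + |D| := by
      calc |A| = |(A - (B + D)) + B + D| := by congr 1; ring
        _ ≤ |(A - (B + D)) + B| + |D| := abs_add_le _ _
        _ ≤ _ := by gcongr; exact abs_add_le _ _
    linarith
  -- the error term
  have herr : ∀ R ∈ S, C0 * Win.erw (κ/2) R δ ≤ v / 8 := by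
    intro R hR
    have h0 := hSX R hR
    have hR0 : 0 < R := by linarith
    have hR2 : R ≤ 2 * X := by linarith
    have i1 : C0 * (δ * R ^ (1/2 + κ/2)) ≤ v / 24 := by
      have g2 : R ^ (1/2 + κ/2) ≤ 2 * X ^ (1/2 + κ/2) := by
        calc R ^ (1/2 + κ/2) ≤ (2 * X) ^ (1/2 + κ/2) := Real.rpow_le_rpow hR0.le hR2 (by positivity)
          _ = 2 ^ (1/2 + κ/2) * X ^ (1/2 + κ/2) := Real.mul_rpow (by norm_num) hX0.le
          _ ≤ 2 * X ^ (1/2 + κ/2) := by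
              apply mul_le_mul_of_nonneg_right _ (by positivity)
              calc (2:ℝ) ^ (1/2 + κ/2) ≤ 2 ^ (1:ℝ) := Real.rpow_le_rpow_of_exponent_le (by norm_num) (by linarith)
                _ = 2 := Real.rpow_one _
      calc C0 * (δ * R ^ (1/2 + κ/2)) ≤ C0 * (δ * (2 * X ^ (1/2 + κ/2))) := by gcongr
        _ = v * (2 * C0 * (X ^ (-(1/2 + κ)) * X ^ (1/2 + κ/2))) := by rw [hδ]; ring
        _ = v * (2 * C0 * X ^ (-(κ/2))) := by rw [← Real.rpow_add hX0]; congr 3; ring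
        _ ≤ v * (1/24) := mul_le_mul_of_nonneg_left z1 hv0.le
        _ = v / 24 := by ring
    have i2 : C0 * (R ^ (-(12/25):ℝ) * δ ^ (-(13/25):ℝ)) ≤ v / 24 := by
      have j1 : R ^ (-(12/25):ℝ) ≤ X ^ (-(12/25):ℝ) := Real.rpow_le_rpow_of_nonpos hX0 h0.1 (by norm_num)
      have j2 : δ ^ (-(13/25):ℝ) ≤ X ^ ((1/2 + κ) * (13/25)) := by
        calc δ ^ (-(13/25):ℝ) ≤ (X ^ (-(1/2 + κ))) ^ (-(13/25):ℝ) := Real.rpow_le_rpow_of_nonpos hXκ hδX (by norm_num)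
          _ = _ := by rw [← Real.rpow_mul hX0.le]; congr 1; ring
      calc C0 * (R ^ (-(12/25):ℝ) * δ ^ (-(13/25):ℝ)) ≤ C0 * (X ^ (-(12/25):ℝ) * X ^ ((1/2 + κ) * (13/25))) := by gcongr
        _ = C0 * X ^ (-(12/25) + (1/2 + κ) * (13/25)) := by rw [Real.rpow_add hX0]
        _ ≤ C0 * X ^ (-(1/5):ℝ) := by
            apply mul_le_mul_of_nonneg_left _ (by positivity)
            exact Real.rpow_le_rpow_of_exponent_le hX1 (by linarith)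
        _ ≤ 1/24 := z2
        _ ≤ v/24 := by linarith
    have i3 : C0 * δ ^ (2/5:ℝ) ≤ v / 24 := by
      calc C0 * δ ^ (2/5:ℝ) ≤ C0 * (X ^ (-(3/10):ℝ)) ^ (2/5:ℝ) := by gcongr
        _ = C0 * X ^ (-(3/25):ℝ) := by rw [← Real.rpow_mul hX0.le]; norm_num
        _ ≤ 1/24 := z3
        _ ≤ v/24 := by linarith
    unfold Win.erw
    have : C0 * (δ * R ^ (1/2 + κ/2) + R ^ (-(12/25):ℝ) * δ ^ (-(13/25):ℝ) + δ ^ (2/5:ℝ)) =
        C0 * (δ * R ^ (1/2 + κ/2)) + C0 * (R ^ (-(12/25):ℝ) * δ ^ (-(13/25):ℝ)) + C0 * δ ^ (2/5:ℝ) := by ring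
    linarith
  -- inclusion
  have ha1v : |a 1| ≤ v / 8 := by rw [hV0] at hvV; linarith
  set S1 := S.filter (fun R => v / 2 ≤ ∑ j ∈ range J, ‖Br (cr a φ w (κ₁ * δ) δ) j R‖) with hS1
  set S2 := S.filter (fun R => v / 2 ≤ ∑ j ∈ range J, ‖Br (cr a φ w (κ₂ * δ) δ) j R‖) with hS2
  have hsub : S ⊆ S1 ∪ S2 := by
    intro R hR
    have hR4 : 4 ≤ R := by linarith [(hSX R hR).1]
    obtain ⟨h1, h2⟩ := hS R R δ hR4 hδ0 hδ12 (by rw [sub_self, abs_zero]; exact hδ0.le)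
    have g1 := hWS (κ₁ * δ) R
    have g2 := hWS (κ₂ * δ) R
    have g3 := herr R hR
    rw [mem_union, hS1, hS2, mem_filter, mem_filter]
    rcases le_abs.mp (hvE R hR) with h3 | h3
    · left
      refine ⟨hR, ?_⟩
      have := le_abs_self (GW.WS a φ w (R + κ₁ * δ) δ)
      linarith
    · right
      refine ⟨hR, ?_⟩
      have := neg_abs_le (GW.WS a φ w (R + κ₂ * δ) δ)
      linarith
  set W : ℝ := L * v ^ (-6:ℝ) + X ^ (1/2:ℝ) * v ^ (-3:ℝ) with hW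
  have hW0 : 0 ≤ W := by positivity
  have hbound : ∀ (y : ℝ), ((S.filter (fun R => v / 2 ≤ ∑ j ∈ range J, ‖Br (cr a φ w y δ) j R‖)).card : ℝ) ≤
      CC / 2 * X ^ ε * W := by
    intro y
    have b1 := hTB J (S.filter (fun R => v / 2 ≤ ∑ j ∈ range J, ‖Br (cr a φ w y δ) j R‖)) X L δ (v/2) (cr a φ w y δ) hL0.le
      (fun R hR => hSX R (mem_of_mem_filter R hR))
      (fun R hR R' hR' => hsep R (mem_of_mem_filter R hR) R' (mem_of_mem_filter R' hR')) hδ0 hδ1 (by positivity) (hbb y)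
      (fun R hR => (mem_filter.mp hR).2)
    refine b1.trans ?_
    have hv6 : (v/2) ^ (-6:ℝ) = 64 * v ^ (-6:ℝ) := by
      rw [Real.div_rpow hv0.le (by norm_num), Real.rpow_neg (by norm_num : (0:ℝ) ≤ 2), div_inv_eq_mul, mul_comm]
      norm_num
    have hv2 : (v/2) ^ (-2:ℝ) = 4 * v ^ (-2:ℝ) := by
      rw [Real.div_rpow hv0.le (by norm_num), Real.rpow_neg (by norm_num : (0:ℝ) ≤ 2), div_inv_eq_mul, mul_comm]
      norm_num
    have hJ7 : (J:ℝ)^7 ≤ CJ^7 * X ^ (7 * κ) := by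
      calc (J:ℝ)^7 ≤ (CJ * X ^ κ)^7 := pow_le_pow_left₀ (Nat.cast_nonneg J) hJ3 7
        _ = CJ^7 * (X ^ κ)^7 := by rw [mul_pow]
        _ = _ := by
            rw [← Real.rpow_natCast (X ^ κ) 7, ← Real.rpow_mul hX0.le]; congr 2; push_cast; ring
    have hQ7 : ((2:ℝ)^J) ^ (7 * κ) ≤ 2 * X ^ (7 * κ) := by
      calc ((2:ℝ)^J) ^ (7 * κ) ≤ (2 * X) ^ (7 * κ) := Real.rpow_le_rpow (by positivity) hJ2 (by positivity)
        _ = 2 ^ (7 * κ) * X ^ (7 * κ) := Real.mul_rpow (by norm_num) hX0.le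
        _ ≤ 2 * X ^ (7 * κ) := by
            apply mul_le_mul_of_nonneg_right _ (by positivity)
            calc (2:ℝ) ^ (7 * κ) ≤ 2 ^ (1:ℝ) := Real.rpow_le_rpow_of_exponent_le (by norm_num) (by linarith)
              _ = 2 := Real.rpow_one _
    have hδv : δ ^ (-(1 + 2 * κ)) * v ^ (-2:ℝ) ≤ X ^ (1/2 + 3 * κ) * v ^ (-3:ℝ) := by
      have i1 : δ ^ (-(1 + 2 * κ)) = v ^ (-(1 + 2 * κ)) * X ^ ((1/2 + κ) * (1 + 2 * κ)) := by
        rw [hδ, Real.mul_rpow hv0.le hXκ.le, ← Real.rpow_mul hX0.le]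
        congr 2; ring
      have i2 : v ^ (-(1 + 2 * κ)) ≤ v ^ (-1:ℝ) := Real.rpow_le_rpow_of_exponent_le hv (by linarith)
      have i3 : X ^ ((1/2 + κ) * (1 + 2 * κ)) ≤ X ^ (1/2 + 3 * κ) := by
        apply Real.rpow_le_rpow_of_exponent_le hX1
        nlinarith
      rw [i1]
      calc v ^ (-(1 + 2 * κ)) * X ^ ((1/2 + κ) * (1 + 2 * κ)) * v ^ (-2:ℝ) ≤ v ^ (-1:ℝ) * X ^ (1/2 + 3 * κ) * v ^ (-2:ℝ) := by gcongr
        _ = X ^ (1/2 + 3 * κ) * (v ^ (-1:ℝ) * v ^ (-2:ℝ)) := by ring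
        _ = _ := by rw [← Real.rpow_add hv0]; norm_num
    have k1 : (L + 1) * ((2:ℝ)^J) ^ (7 * κ) * (v/2) ^ (-6:ℝ) ≤ 256 * X ^ (7 * κ) * (L * v ^ (-6:ℝ)) := by
      rw [hv6]
      calc (L + 1) * ((2:ℝ)^J) ^ (7 * κ) * (64 * v ^ (-6:ℝ)) ≤ (2 * L) * (2 * X ^ (7 * κ)) * (64 * v ^ (-6:ℝ)) := by
            gcongr
            linarith
        _ = _ := by ring
    have k2 : δ ^ (-(1 + 2 * κ)) * (v/2) ^ (-2:ℝ) ≤ 4 * X ^ (3 * κ) * (X ^ (1/2:ℝ) * v ^ (-3:ℝ)) := by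
      rw [hv2]
      calc δ ^ (-(1 + 2 * κ)) * (4 * v ^ (-2:ℝ)) = 4 * (δ ^ (-(1 + 2 * κ)) * v ^ (-2:ℝ)) := by ring
        _ ≤ 4 * (X ^ (1/2 + 3 * κ) * v ^ (-3:ℝ)) := mul_le_mul_of_nonneg_left hδv (by norm_num)
        _ = _ := by rw [Real.rpow_add hX0]; ring
    have hX37 : X ^ (3 * κ) ≤ X ^ (7 * κ) := Real.rpow_le_rpow_of_exponent_le hX1 (by linarith)
    have k3 : (L + 1) * ((2:ℝ)^J) ^ (7 * κ) * (v/2) ^ (-6:ℝ) + δ ^ (-(1 + 2 * κ)) * (v/2) ^ (-2:ℝ) ≤ 256 * X ^ (7 * κ) * W := by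
      have l1 : 4 * X ^ (3 * κ) * (X ^ (1/2:ℝ) * v ^ (-3:ℝ)) ≤ 256 * X ^ (7 * κ) * (X ^ (1/2:ℝ) * v ^ (-3:ℝ)) := by
        apply mul_le_mul_of_nonneg_right _ hT2
        have : 0 < X ^ (7 * κ) := by positivity
        linarith
      rw [hW, mul_add]
      linarith
    have hX14 : X ^ (7 * κ) * X ^ (7 * κ) ≤ X ^ ε := by
      rw [← Real.rpow_add hX0]
      exact Real.rpow_le_rpow_of_exponent_le hX1 (by linarith)
    calc Cb * (J:ℝ)^7 * ((L + 1) * ((2:ℝ)^J) ^ (7 * κ) * (v/2) ^ (-6:ℝ) + δ ^ (-(1 + 2 * κ)) * (v/2) ^ (-2:ℝ))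
        ≤ Cb * (CJ^7 * X ^ (7 * κ)) * (256 * X ^ (7 * κ) * W) := by gcongr
      _ = 256 * Cb * CJ^7 * (X ^ (7 * κ) * X ^ (7 * κ)) * W := by ring
      _ ≤ 256 * Cb * CJ^7 * X ^ ε * W := by gcongr
      _ ≤ CC / 2 * X ^ ε * W := by
          apply mul_le_mul_of_nonneg_right _ hW0
          apply mul_le_mul_of_nonneg_right _ (by positivity)
          rw [hCC]
          have : 0 < Cb * CJ^7 := by positivity
          nlinarith
  have hcard := (card_le_card hsub).trans (card_union_le _ _)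
  have hcard' : (S.card : ℝ) ≤ (S1.card : ℝ) + (S2.card : ℝ) := by exact_mod_cast hcard
  have c1 := hbound (κ₁ * δ)
  have c2 := hbound (κ₂ * δ)
  have hfin : (S.card : ℝ) ≤ CC * X ^ ε * W := by
    rw [← hS1] at c1
    rw [← hS2] at c2
    linarith
  refine hfin.trans ?_
  apply mul_le_mul_of_nonneg_right _ hW0
  apply mul_le_mul_of_nonneg_right _ (by positivity)
  linarith

end Pool.Agent.H425R3.UI
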