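import Mathlib
import Pool.Agent.H425R3.UI.U4
import Pool.Agent.H425R3.JL.F3

open Finset Filter Topology
open Pool.Agent.H387R2.Vor
open Pool.Agent.H383.AP Pool.Agent.H383.Gauss Pool.Agent.H383.Gen Pool.Agent.H383.Div Pool.Agent.H383.Circ
open Pool.Agent.H452R2 Pool.Agent.H452R2.Win
open Pool.Agent.H383

namespace Pool.Agent.H425R3.UI

/-- large value estimate at separated points -/
def LvR (E : ℝ → ℝ) : Prop := ∀ ε : ℝ, 0 < ε → ∃ C : ℝ, 0 < C ∧ ∃ X0 : ℕ, ∀ X : ℝ, (X0:ℝ) ≤ X → ∀ L : ℝ, 1 ≤ L → L ≤ X →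
    ∀ S : Finset ℝ, (∀ R ∈ S, X ≤ R ∧ R ≤ X + L) → (∀ R ∈ S, ∀ R' ∈ S, R ≠ R' → 1 ≤ |R - R'|) →
    ∀ v : ℝ, 1 ≤ v → (∀ R ∈ S, v ≤ |E R|) →
    (S.card : ℝ) ≤ C * X ^ ε * (L * v ^ (-6:ℝ) + X ^ (1/2:ℝ) * v ^ (-3:ℝ))

open Classical in
/-- from separated points to unit intervals -/
theorem unit_lv {E : ℝ → ℝ} {lam : ℕ} (hlam : 1 ≤ lam) (h : LvR E) {ε : ℝ} (hε : 0 < ε) :
    ∃ C : ℝ, 0 < C ∧ ∃ M0 : ℕ, ∀ M L : ℕ, M0 ≤ M → 1 ≤ L → L ≤ M → ∀ V : ℝ, 1 ≤ V →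
    (((Ico M (M + L)).filter (fun n : ℕ => ∃ R : ℝ, (n:ℝ) ≤ R ∧ R ≤ n + 1 ∧ V ≤ |E (lam * R)|)).card : ℝ) ≤
      C * (M:ℝ) ^ ε * (L * V ^ (-6:ℝ) + (M:ℝ) ^ (1/2:ℝ) * V ^ (-3:ℝ)) := by
  obtain ⟨C, hC, X0, h⟩ := h ε hε
  have hl1 : (1:ℝ) ≤ lam := by exact_mod_cast hlam
  have hl0 : (0:ℝ) < lam := by linarith
  refine ⟨2 * C * (lam:ℝ) ^ ε * lam, by positivity, X0 + 1, ?_⟩
  intro M L hM hL hLM V hV
  have hM1 : (1:ℝ) ≤ M := by exact_mod_cast (by omega : 1 ≤ M)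
  have hM0 : (0:ℝ) < M := by linarith
  have hMX : (X0:ℝ) ≤ M := by exact_mod_cast (by omega : X0 ≤ M)
  have hL1 : (1:ℝ) ≤ L := by exact_mod_cast hL
  have hLM' : (L:ℝ) ≤ M := by exact_mod_cast hLM
  have hV0 : 0 < V := by linarith
  set P := (Ico M (M + L)).filter (fun n : ℕ => ∃ R : ℝ, (n:ℝ) ≤ R ∧ R ≤ n + 1 ∧ V ≤ |E (lam * R)|) with hP
  have hex : ∀ n : ℕ, ∃ R : ℝ, n ∈ P → ((n:ℝ) ≤ R ∧ R ≤ n + 1 ∧ V ≤ |E (lam * R)|) := by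
    intro n
    by_cases hn : n ∈ P
    · rw [hP, mem_filter] at hn
      obtain ⟨R, hR⟩ := hn.2
      exact ⟨R, fun _ => hR⟩
    · exact ⟨0, fun h => absurd h hn⟩
  choose f hf using hex
  have hone : ∀ i : ℕ, ((P.filter (fun n => n % 2 = i)).card : ℝ) ≤
      C * (lam:ℝ) ^ ε * lam * (M:ℝ) ^ ε * (L * V ^ (-6:ℝ) + (M:ℝ) ^ (1/2:ℝ) * V ^ (-3:ℝ)) := by
    intro i
    set Pi := P.filter (fun n => n % 2 = i) with hPi
    have hgap : ∀ n ∈ Pi, ∀ n' ∈ Pi, n < n' → lam * f n + 1 ≤ lam * f n' := by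
      intro n hn n' hn' hlt
      rw [hPi, mem_filter] at hn hn'
      have h1 : n + 2 ≤ n' := by omega
      have h2 : (n:ℝ) + 2 ≤ n' := by exact_mod_cast h1
      have h3 := (hf n hn.1).2.1
      have h4 := (hf n' hn'.1).1
      nlinarith
    have hinj : Set.InjOn (fun n => (lam:ℝ) * f n) (Pi : Set ℕ) := by
      intro n hn n' hn' heq
      by_contra hne
      simp only at heq
      rcases lt_or_gt_of_ne hne with h1 | h1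
      · have := hgap n hn n' hn' h1; linarith
      · have := hgap n' hn' n hn h1; linarith
    set S : Finset ℝ := Pi.image (fun n => (lam:ℝ) * f n) with hS
    have hcard : S.card = Pi.card := card_image_of_injOn hinj
    have hLL : (lam:ℝ) * L ≤ lam * M := by gcongr
    have h1 := h (lam * M) (by nlinarith) (lam * L) (by nlinarith) hLL S (by
      intro R hR
      rw [hS, mem_image] at hR
      obtain ⟨n, hn, rfl⟩ := hR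
      rw [hPi, mem_filter] at hn
      have h3 := hf n hn.1
      have h5 := hn.1
      rw [hP, mem_filter, mem_Ico] at h5
      have h6 : (M:ℝ) ≤ n := by exact_mod_cast h5.1.1
      have h7 : (n:ℝ) + 1 ≤ M + L := by exact_mod_cast h5.1.2
      constructor
      · exact mul_le_mul_of_nonneg_left (by linarith) hl0.le
      · rw [← mul_add]; exact mul_le_mul_of_nonneg_left (by linarith) hl0.le) (by
      intro R hR R' hR' hne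
      rw [hS, mem_image] at hR hR'
      obtain ⟨n, hn, rfl⟩ := hR
      obtain ⟨n', hn', rfl⟩ := hR'
      have hnn : n ≠ n' := fun h => hne (by rw [h])
      rcases lt_or_gt_of_ne hnn with h2 | h2
      · have := hgap n hn n' hn' h2
        rw [abs_sub_comm, abs_of_nonneg (by linarith)]; linarith
      · have := hgap n' hn' n hn h2
        rw [abs_of_nonneg (by linarith)]; linarith) V hV (by
      intro R hR
      rw [hS, mem_image] at hR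
      obtain ⟨n, hn, rfl⟩ := hR
      rw [hPi, mem_filter] at hn
      exact (hf n hn.1).2.2)
    rw [hcard] at h1
    refine h1.trans ?_
    have e1 : ((lam:ℝ) * M) ^ ε = (lam:ℝ) ^ ε * (M:ℝ) ^ ε := Real.mul_rpow hl0.le hM0.le
    have e2 : ((lam:ℝ) * M) ^ (1/2:ℝ) ≤ lam * (M:ℝ) ^ (1/2:ℝ) := by
      rw [Real.mul_rpow hl0.le hM0.le]
      apply mul_le_mul_of_nonneg_right _ (by positivity)
      calc (lam:ℝ) ^ (1/2:ℝ) ≤ (lam:ℝ) ^ (1:ℝ) := Real.rpow_le_rpow_of_exponent_le hl1 (by norm_num)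
        _ = lam := Real.rpow_one _
    rw [e1]
    calc C * ((lam:ℝ) ^ ε * (M:ℝ) ^ ε) * (lam * L * V ^ (-6:ℝ) + (lam * M) ^ (1/2:ℝ) * V ^ (-3:ℝ))
        ≤ C * ((lam:ℝ) ^ ε * (M:ℝ) ^ ε) * (lam * L * V ^ (-6:ℝ) + lam * (M:ℝ) ^ (1/2:ℝ) * V ^ (-3:ℝ)) := by gcongr
      _ = _ := by ring
  have hsub : P ⊆ P.filter (fun n => n % 2 = 0) ∪ P.filter (fun n => n % 2 = 1) := by
    intro n hn
    have : n % 2 = 0 ∨ n % 2 = 1 := by omega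
    rcases this with h2 | h2
    · exact mem_union_left _ (mem_filter.mpr ⟨hn, h2⟩)
    · exact mem_union_right _ (mem_filter.mpr ⟨hn, h2⟩)
  have hcard := (card_le_card hsub).trans (card_union_le _ _)
  have hcard' : (P.card : ℝ) ≤ ((P.filter (fun n => n % 2 = 0)).card : ℝ) + ((P.filter (fun n => n % 2 = 1)).card : ℝ) := by
    exact_mod_cast hcard
  have h0 := hone 0
  have h1 := hone 1
  linarith

theorem circ_LvR : LvR En := fun _ hε => lv_real ag_Bdw ag_zero wg_Wt En_SandW hε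

theorem div_LvR : LvR E2 := fun _ hε => lv_real ad_Bdw2 ad_zero wd_Wt (E2_SandW vor) hε

open Classical in
theorem circ_unit {ε : ℝ} (hε : 0 < ε) :
    ∃ (C : ℝ) (M₀ : ℕ), ∀ M L : ℕ, M₀ ≤ M → 1 ≤ L → L ≤ M → ∀ V : ℝ, 1 ≤ V →
    (((Ico M (M + L)).filter (fun n : ℕ => ∃ R : ℝ, (n:ℝ) ≤ R ∧ R ≤ n + 1 ∧
        V * R ^ (1/2:ℝ) ≤ |(Nat.card {p : ℤ × ℤ // (p.1 : ℝ) ^ 2 + (p.2 : ℝ) ^ 2 ≤ R ^ 2} : ℝ) - Real.pi * R ^ 2|)).card : ℝ) ≤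
      C * (M:ℝ) ^ ε * (L * V ^ (-6:ℝ) + (M:ℝ) ^ (1/2:ℝ) * V ^ (-3:ℝ)) := by
  obtain ⟨C, hC, M0, h⟩ := unit_lv (lam := 1) le_rfl circ_LvR hε
  refine ⟨C, M0 + 1, fun M L hM hL hLM V hV => ?_⟩
  refine le_trans ?_ (h M L (by omega) hL hLM V hV)
  have hsub : (Ico M (M + L)).filter (fun n : ℕ => ∃ R : ℝ, (n:ℝ) ≤ R ∧ R ≤ n + 1 ∧
        V * R ^ (1/2:ℝ) ≤ |(Nat.card {p : ℤ × ℤ // (p.1 : ℝ) ^ 2 + (p.2 : ℝ) ^ 2 ≤ R ^ 2} : ℝ) - Real.pi * R ^ 2|) ⊆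
      (Ico M (M + L)).filter (fun n : ℕ => ∃ R : ℝ, (n:ℝ) ≤ R ∧ R ≤ n + 1 ∧ V ≤ |En ((1:ℕ) * R)|) := by
    intro n hn
    rw [mem_filter] at hn ⊢
    refine ⟨hn.1, ?_⟩
    obtain ⟨R, h1, h2, h3⟩ := hn.2
    refine ⟨R, h1, h2, ?_⟩
    have hn1 : (1:ℝ) ≤ n := by
      have := (mem_Ico.mp hn.1).1
      exact_mod_cast (by omega : 1 ≤ n)
    have hR : 0 < R := by linarith
    have hsR : 0 < √R := Real.sqrt_pos.mpr hR
    rw [Nat.cast_one, one_mul]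
    unfold En
    rw [abs_div, abs_of_pos hsR, le_div_iff₀ hsR, Real.sqrt_eq_rpow]
    exact h3
  exact_mod_cast card_le_card hsub

open Classical in
theorem div_unit {ε : ℝ} (hε : 0 < ε) :
    ∃ (C : ℝ) (M₀ : ℕ), ∀ M L : ℕ, M₀ ≤ M → 1 ≤ L → L ≤ M → ∀ V : ℝ, 1 ≤ V →
    (((Ico M (M + L)).filter (fun n : ℕ => ∃ x : ℝ, (n:ℝ) ^ 2 ≤ x ∧ x ≤ ((n:ℝ) + 1) ^ 2 ∧
        V * x ^ (1/4:ℝ) ≤ |(∑ j ∈ Icc 1 ⌊x⌋₊, (j.divisors.card : ℝ)) - x * Real.log x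
          - (2 * Real.eulerMascheroniConstant - 1) * x|)).card : ℝ) ≤
      C * (M:ℝ) ^ ε * (L * V ^ (-6:ℝ) + (M:ℝ) ^ (1/2:ℝ) * V ^ (-3:ℝ)) := by
  obtain ⟨C, hC, M0, h⟩ := unit_lv (lam := 2) (by norm_num) div_LvR hε
  refine ⟨C, M0 + 1, fun M L hM hL hLM V hV => ?_⟩
  refine le_trans ?_ (h M L (by omega) hL hLM V hV)
  have hsub : (Ico M (M + L)).filter (fun n : ℕ => ∃ x : ℝ, (n:ℝ) ^ 2 ≤ x ∧ x ≤ ((n:ℝ) + 1) ^ 2 ∧
        V * x ^ (1/4:ℝ) ≤ |(∑ j ∈ Icc 1 ⌊x⌋₊, (j.divisors.card : ℝ)) - x * Real.log x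
          - (2 * Real.eulerMascheroniConstant - 1) * x|) ⊆
      (Ico M (M + L)).filter (fun n : ℕ => ∃ R : ℝ, (n:ℝ) ≤ R ∧ R ≤ n + 1 ∧ V ≤ |E2 ((2:ℕ) * R)|) := by
    intro n hn
    rw [mem_filter] at hn ⊢
    refine ⟨hn.1, ?_⟩
    obtain ⟨x, h1, h2, h3⟩ := hn.2
    have hn1 : (1:ℝ) ≤ n := by
      have := (mem_Ico.mp hn.1).1
      exact_mod_cast (by omega : 1 ≤ n)
    have hx : 0 < x := by nlinarith
    refine ⟨√x, Real.le_sqrt_of_sq_le h1, ?_, ?_⟩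
    · rw [Real.sqrt_le_left (by linarith)]; exact h2
    · have e1 : E2 ((2:ℕ) * √x) = Pool.Agent.H425R3.JL.Edv x := by
        rw [← Pool.Agent.H425R3.JL.Edv_eq hx.le]
        unfold E2
        congr 1
        push_cast; ring
      have hx4 : 0 < x ^ (1/4:ℝ) := by positivity
      rw [e1]
      unfold Pool.Agent.H425R3.JL.Edv
      rw [abs_div, abs_of_pos hx4, le_div_iff₀ hx4]
      exact h3
  exact_mod_cast card_le_card hsub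

end Pool.Agent.H425R3.UI
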